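import Pool.Agent.J4H3.EQ.Stm

/-!
# Project EQ, piece SQ

`t_SQ : J_SQ`: the integral of `D = u - log |f|` over a square near a good point.
-/

set_option autoImplicit false

namespace Pool.Agent.J4H79.EQ

open Complex MeasureTheory Filter Topology Set
open Pool.Agent.J4H4.NG (EE gam ell S_LOC S_REPR S_UPB S_FAR S_GOOD S_REP S_UPT S_GRO)
open Pool.Agent.J4H3.EQ

noncomputable section

/-- the circle average of a continuous function plus a constant -/
lemma circleAverage_add_cst (u : ℂ → ℝ) (hu : Continuous u) (k : ℝ) (c : ℂ) (s : ℝ) :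
    Real.circleAverage (fun w => u w + k) c s = Real.circleAverage u c s + k := by
  have h1 : CircleIntegrable u c s := hu.continuousOn.circleIntegrable'
  have h2 : CircleIntegrable (fun _ : ℂ => k) c s := continuous_const.continuousOn.circleIntegrable'
  rw [Real.circleAverage_fun_add h1 h2, Real.circleAverage_const]

/-- `EE a` is entire -/
lemma diffEE (hREP : S_REP) (a : ℝ) (ha : 0 < a) : Differentiable ℂ (EE a) := by
  have h := (hREP (4 * a) (by positivity)).2.1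
  have e : 4 * a / 4 = a := by ring
  rwa [e] at h

/-- distance in a disc from coordinates -/
lemma norm_le_of_coord (w g : ℂ) (x y R : ℝ) (hx : |w.re - g.re| ≤ x) (hy : |w.im - g.im| ≤ y) (hR : 0 ≤ R)
    (h : x ^ 2 + y ^ 2 ≤ R ^ 2) : ‖w - g‖ ≤ R := by
  have h1 : ‖w - g‖ ^ 2 = (w.re - g.re) ^ 2 + (w.im - g.im) ^ 2 := by
    rw [← Complex.normSq_eq_norm_sq, Complex.normSq_apply]
    simp
    ring
  have hx2 : (w.re - g.re) ^ 2 ≤ x ^ 2 := by
    rw [← sq_abs (w.re - g.re)]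
    exact pow_le_pow_left₀ (abs_nonneg _) hx 2
  have hy2 : (w.im - g.im) ^ 2 ≤ y ^ 2 := by
    rw [← sq_abs (w.im - g.im)]
    exact pow_le_pow_left₀ (abs_nonneg _) hy 2
  exact abs_le_of_sq_le_sq' (by rw [h1]; linarith) hR |>.2

/-- the general step: (AVG) at a point with a lower bound -/
lemma disc_bound (hUPP : S_UPP) (hCAV : S_CAV) (hAVG : S_AVG) (hREP : S_REP) (a K A : ℝ) (ha : 0 < a) (hK : 0 < K) :
    ∃ A₁ T₀ : ℝ, 0 < A₁ ∧ 2 ≤ T₀ ∧ ∀ T : ℝ, T₀ ≤ T → ∀ (g : ℂ) (R Q : ℝ), 0 < R → R ≤ K * Real.log T →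
      |g.re| + R ≤ K * Real.log T → T / 2 + R ≤ g.im → EE a g ≠ 0 → 0 ≤ Q → pot a g - Q ≤ Real.log ‖EE a g‖ →
      ∫⁻ w in Metric.closedBall g R, ENNReal.ofReal (pot a w + A * Real.log T - Real.log ‖EE a w‖) ≤
        ENNReal.ofReal (Real.pi * R ^ 2 * (R ^ 2 / (8 * a) + 1 + A₁ * Real.log T + Q)) := by
  obtain ⟨A₀, T₁, hA₀, hT₁, hU⟩ := hUPP a K ha hK
  obtain ⟨hcont, hcav⟩ := hCAV
  obtain ⟨T₂, hT₂, hC⟩ := hcav a K ha hK
  refine ⟨max A A₀, max T₁ T₂, lt_of_lt_of_le hA₀ (le_max_right _ _), le_trans hT₁ (le_max_left _ _), ?_⟩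
  intro T hT g R Q hR hRK hgre hgim hg0 hQ hlow
  have hTT₁ : T₁ ≤ T := le_trans (le_max_left _ _) hT
  have hTT₂ : T₂ ≤ T := le_trans (le_max_right _ _) hT
  have hT1 : (1 : ℝ) ≤ T := by linarith
  have hL : 0 ≤ Real.log T := Real.log_nonneg hT1
  set A₁ := max A A₀ with hA₁
  have hA₁pos : 0 < A₁ := lt_of_lt_of_le hA₀ (le_max_right _ _)
  have hB0 : 0 ≤ R ^ 2 / (8 * a) + 1 + A₁ * Real.log T + Q := by positivity
  have hmain := hAVG (EE a) (fun w => pot a w + A₁ * Real.log T) g R (R ^ 2 / (8 * a) + 1 + A₁ * Real.log T + Q)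
    (diffEE hREP a ha) ((hcont a).add continuous_const) hg0 hR hB0 ?_ ?_
  · refine le_trans ?_ hmain
    refine lintegral_mono ?_
    intro w
    refine ENNReal.ofReal_le_ofReal ?_
    have : A * Real.log T ≤ A₁ * Real.log T := mul_le_mul_of_nonneg_right (le_max_left _ _) hL
    linarith
  · intro w hw hw0
    have h1 : |w.re| ≤ K * Real.log T := by
      have h2 : |w.re - g.re| ≤ R := by
        have := Complex.abs_re_le_norm (w - g)
        rw [Complex.sub_re] at this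
        exact le_trans this hw
      have h3 : |w.re| ≤ |g.re| + |w.re - g.re| := by
        have h4 := abs_add_le g.re (w.re - g.re)
        have h5 : g.re + (w.re - g.re) = w.re := by ring
        rwa [h5] at h4
      linarith
    have h2 : T / 2 ≤ w.im := by
      have h3 : |w.im - g.im| ≤ R := by
        have := Complex.abs_im_le_norm (w - g)
        rw [Complex.sub_im] at this
        exact le_trans this hw
      have h4 := (abs_le.mp h3).1
      linarith
    have h3 := hU T hTT₁ w h1 h2 hw0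
    have h4 : A₀ * Real.log T ≤ A₁ * Real.log T := mul_le_mul_of_nonneg_right (le_max_right _ _) hL
    linarith
  · intro s hs hsR
    have h1 : T / 2 ≤ g.im := by linarith
    have h2 := hC T hTT₂ g s h1 hs (le_trans hsR hRK)
    have h3 := (abs_le.mp h2).2
    rw [circleAverage_add_cst (pot a) (hcont a)]
    have h4 : s ^ 2 / (8 * a) ≤ R ^ 2 / (8 * a) := by
      have : s ^ 2 ≤ R ^ 2 := pow_le_pow_left₀ hs.le hsR 2
      gcongr
    linarith

/-- (SQ) -/
theorem t_SQ : J_SQ := by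
  intro hUPP hCAV hAVG hREP a κ A A' ha hκ hκ1
  obtain ⟨A₁, T₁, hA₁, hT₁, hD⟩ := disc_bound hUPP hCAV hAVG hREP a (a + 7) A ha (by positivity)
  have hlog : Tendsto Real.log atTop atTop := Real.tendsto_log_atTop
  have hlogT : Tendsto (fun T : ℝ => Real.log T / T) atTop (𝓝 0) := by
    have := Real.isLittleO_log_id_atTop.tendsto_div_nhds_zero
    simpa using this
  have e1 : ∀ᶠ T : ℝ in atTop, Real.log T / T < 1 / 14 := hlogT.eventually (gt_mem_nhds (by norm_num))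
  have e2 : ∀ᶠ T : ℝ in atTop, max 1 (70 * (1 + A₁ + |A'|) * a / (138 * κ ^ 2)) ≤ Real.log T := hlog.eventually_ge_atTop _
  obtain ⟨T₂, hT₂⟩ := Filter.eventually_atTop.mp (e1.and e2)
  refine ⟨max T₁ T₂, le_trans hT₁ (le_max_left _ _), ?_⟩
  intro T hT x v g hx hv1 hv2 hgx hgv hg0 hlow
  have hTT₁ : T₁ ≤ T := le_trans (le_max_left _ _) hT
  have hTT₂ : T₂ ≤ T := le_trans (le_max_right _ _) hT
  obtain ⟨hs1, hs2⟩ := hT₂ T hTT₂
  have hT2 : (2 : ℝ) ≤ T := le_trans hT₁ hTT₁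
  have hTpos : 0 < T := by linarith
  set L := Real.log T with hLdef
  have hL1 : 1 ≤ L := le_trans (le_max_left _ _) hs2
  have hL2 : 70 * (1 + A₁ + |A'|) * a / (138 * κ ^ 2) ≤ L := le_trans (le_max_right _ _) hs2
  have hL0 : 0 < L := by linarith
  have hLT : L < T / 14 := by
    rw [div_lt_iff₀ hTpos] at hs1
    linarith
  set R := 9 / 2 * κ * L with hRdef
  have hR : 0 < R := by positivity
  have hκL : κ * L ≤ L := by nlinarith
  have hgre : |g.re| ≤ |x| + 2 * κ * L := by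
    have h4 := abs_add_le x (g.re - x)
    have h5 : x + (g.re - x) = g.re := by ring
    rw [h5] at h4
    linarith
  have hgim : v - 2 * κ * L ≤ g.im := by
    have := (abs_le.mp hgv).1
    linarith
  have hQ : 0 ≤ |A'| * L := by positivity
  have hlow' : pot a g - |A'| * L ≤ Real.log ‖EE a g‖ := by
    have : A' * L ≤ |A'| * L := mul_le_mul_of_nonneg_right (le_abs_self _) hL0.le
    linarith
  have hb := hD T hTT₁ g R (|A'| * L) hR (by rw [hRdef]; nlinarith) (by rw [hRdef]; nlinarith) (by rw [hRdef]; nlinarith) hg0 hQ hlow'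
  have hsub : Rect (x - κ * L) (x + κ * L) v (v + κ * L) ⊆ Metric.closedBall g R := by
    intro w hw
    obtain ⟨h1, h2, h3, h4⟩ := hw
    rw [Metric.mem_closedBall, dist_eq_norm]
    refine norm_le_of_coord w g (3 * κ * L) (3 * κ * L) R ?_ ?_ hR.le ?_
    · have := abs_le.mp hgx
      rw [abs_le]
      constructor <;> nlinarith
    · have := abs_le.mp hgv
      rw [abs_le]
      constructor <;> nlinarith
    · rw [hRdef]
      have : 0 ≤ (κ * L) ^ 2 := sq_nonneg _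
      nlinarith
  refine le_trans (lintegral_mono_set hsub) (le_trans hb ?_)
  refine ENNReal.ofReal_le_ofReal ?_
  have hpi : Real.pi < 3.15 := Real.pi_lt_d2
  have hpi0 : 0 < Real.pi := Real.pi_pos
  have hstep : R ^ 2 / (8 * a) + 1 + A₁ * L + |A'| * L ≤ R ^ 2 / (8 * a) + (1 + A₁ + |A'|) * L := by nlinarith
  have hP : 0 ≤ 1 + A₁ + |A'| := by positivity
  have hkey : 70 * ((1 + A₁ + |A'|) * L) ≤ 138 * κ ^ 2 / a * L ^ 2 := by
    have h1 : 70 * (1 + A₁ + |A'|) * a ≤ L * (138 * κ ^ 2) := by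
      rwa [div_le_iff₀ (by positivity)] at hL2
    have h2 : 138 * κ ^ 2 / a * L ^ 2 = (L * (138 * κ ^ 2)) * L / a := by ring
    rw [h2, le_div_iff₀ ha]
    have h3 : (70 * (1 + A₁ + |A'|) * a) * L ≤ (L * (138 * κ ^ 2)) * L := mul_le_mul_of_nonneg_right h1 hL0.le
    nlinarith
  calc Real.pi * R ^ 2 * (R ^ 2 / (8 * a) + 1 + A₁ * L + |A'| * L)
      ≤ Real.pi * R ^ 2 * (R ^ 2 / (8 * a) + (1 + A₁ + |A'|) * L) := by
        refine mul_le_mul_of_nonneg_left hstep (by positivity)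
    _ ≤ 3.15 * R ^ 2 * (R ^ 2 / (8 * a) + (1 + A₁ + |A'|) * L) := by
        have h0 : 0 ≤ R ^ 2 * (R ^ 2 / (8 * a) + (1 + A₁ + |A'|) * L) := by positivity
        nlinarith
    _ = 3.15 * (81 / 4) ^ 2 / 8 * κ ^ 4 / a * L ^ 4 + 3.15 * (81 / 4) * κ ^ 2 * L ^ 2 * ((1 + A₁ + |A'|) * L) := by
        rw [hRdef]
        field_simp
        ring
    _ ≤ 162 * κ ^ 4 / a * L ^ 4 + κ ^ 2 * L ^ 2 * (138 * κ ^ 2 / a * L ^ 2) := by
        have h1 : 3.15 * (81 / 4) ^ 2 / 8 * κ ^ 4 / a * L ^ 4 ≤ 162 * κ ^ 4 / a * L ^ 4 := by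
          have : 0 ≤ κ ^ 4 / a * L ^ 4 := by positivity
          have h2 : 3.15 * (81 / 4) ^ 2 / 8 * κ ^ 4 / a * L ^ 4 = (3.15 * (81 / 4) ^ 2 / 8) * (κ ^ 4 / a * L ^ 4) := by ring
          have h3 : 162 * κ ^ 4 / a * L ^ 4 = 162 * (κ ^ 4 / a * L ^ 4) := by ring
          rw [h2, h3]
          exact mul_le_mul_of_nonneg_right (by norm_num) this
        have h4 : 3.15 * (81 / 4) * κ ^ 2 * L ^ 2 * ((1 + A₁ + |A'|) * L) ≤ κ ^ 2 * L ^ 2 * (138 * κ ^ 2 / a * L ^ 2) := by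
          have h5 : 3.15 * (81 / 4) * κ ^ 2 * L ^ 2 * ((1 + A₁ + |A'|) * L) =
              (κ ^ 2 * L ^ 2) * ((3.15 * (81 / 4)) * ((1 + A₁ + |A'|) * L)) := by ring
          rw [h5]
          refine mul_le_mul_of_nonneg_left ?_ (by positivity)
          have h6 : 0 ≤ (1 + A₁ + |A'|) * L := by positivity
          nlinarith
        linarith
    _ = 300 * κ ^ 4 / a * L ^ 4 := by ring

end

end Pool.Agent.J4H79.EQ
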