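import Pool.Agent.J4H79.EQ.Sq

/-!
# Project EQ, piece FARM

`t_FARM : J_FARM`: the integral of `D = u - log |f|` over any box.
-/

set_option autoImplicit false

namespace Pool.Agent.J4H79.EQ

open Complex MeasureTheory Filter Topology Set
open Pool.Agent.J4H4.NG (EE gam ell S_LOC S_REPR S_UPB S_FAR S_GOOD S_REP S_UPT S_GRO)
open Pool.Agent.J4H3.EQ

noncomputable section

/-- `gam (2 + iv)` is not zero -/
lemma gam_ne (v : ℝ) : gam (2 + I * v) ≠ 0 := by
  have hre : (2 + I * (v : ℂ)).re = 2 := by simp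
  have h1 : (2 + I * (v : ℂ)) ≠ 0 := by
    intro h
    rw [h] at hre
    simp at hre
  have h2 : (2 + I * (v : ℂ)) - 1 ≠ 0 := by
    intro h
    have := congrArg Complex.re h
    rw [Complex.sub_re, hre] at this
    norm_num at this
  have h3 : Complex.Gammaℝ (2 + I * v) ≠ 0 := Complex.Gammaℝ_ne_zero_of_re_pos (by rw [hre]; norm_num)
  unfold gam
  exact mul_ne_zero (div_ne_zero (mul_ne_zero h1 h2) (by norm_num)) h3

/-- (FARM) -/
theorem t_FARM : J_FARM := by
  intro hFAR hUPP hCAV hAVG hREP a A ha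
  obtain ⟨A₁, T₁, hA₁, hT₁, hD⟩ := disc_bound hUPP hCAV hAVG hREP a (10 * (a + 1)) A ha (by positivity)
  obtain ⟨c, V₀, hc, hV₀, hF⟩ := hFAR a ha
  have hlog : Tendsto Real.log atTop atTop := Real.tendsto_log_atTop
  have hlogT : Tendsto (fun T : ℝ => Real.log T / T) atTop (𝓝 0) := by
    have := Real.isLittleO_log_id_atTop.tendsto_div_nhds_zero
    simpa using this
  have e1 : ∀ᶠ T : ℝ in atTop, Real.log T / T < 1 / (10 * (a + 1)) := hlogT.eventually (gt_mem_nhds (by positivity))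
  have e2 : ∀ᶠ T : ℝ in atTop, (4 : ℝ) ≤ Real.log T := hlog.eventually_ge_atTop _
  have e3 : ∀ᶠ T : ℝ in atTop, max V₀ 7 ≤ T := eventually_ge_atTop _
  obtain ⟨T₂, hT₂⟩ := Filter.eventually_atTop.mp (e1.and (e2.and e3))
  set K := 4 * (a + 1) with hK
  have hKpos : 0 < K := by positivity
  set B := K ^ 2 / (8 * a) + 1 + A₁ + ((a + 1) ^ 2 / (4 * a) + |Real.log c|) with hB
  have hBpos : 0 < B := by positivity
  refine ⟨Real.pi * K ^ 2 * B, max T₁ T₂, by positivity, le_trans hT₁ (le_max_left _ _), ?_⟩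
  intro T hT v hv1 hv2
  have hTT₁ : T₁ ≤ T := le_trans (le_max_left _ _) hT
  have hTT₂ : T₂ ≤ T := le_trans (le_max_right _ _) hT
  obtain ⟨hs1, hs2, hs3⟩ := hT₂ T hTT₂
  have hT2 : (2 : ℝ) ≤ T := le_trans hT₁ hTT₁
  have hTpos : 0 < T := by linarith
  have hT7 : (7 : ℝ) ≤ T := le_trans (le_max_right _ _) hs3
  have hTV : V₀ ≤ v := le_trans (le_trans (le_max_left _ _) hs3) hv1
  set L := Real.log T with hLdef
  have hL0 : 0 < L := by linarith
  have hLT : 10 * (a + 1) * L < T := by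
    rw [div_lt_div_iff₀ hTpos (by positivity)] at hs1
    linarith
  have hpi3 : 3 < Real.pi := Real.pi_gt_three
  have hpi0 : 0 < Real.pi := Real.pi_pos
  have hpi4 : Real.pi < 3.15 := Real.pi_lt_d2
  have hvpos : 0 < v := by linarith
  set l := Real.log (v / (2 * Real.pi)) with hl
  have hl0 : 0 ≤ l := by
    refine Real.log_nonneg ?_
    rw [le_div_iff₀ (by positivity)]
    linarith
  have hlL : l ≤ L := by
    refine Real.log_le_log (by positivity) ?_
    rw [div_le_iff₀ (by positivity)]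
    nlinarith
  set g : ℂ := ((3 / 2 + (a * l + 2) : ℝ) : ℂ) + I * v with hg
  have hgre : g.re = 3 / 2 + (a * l + 2) := by
    rw [hg]
    simp
  have hgim : g.im = v := by
    rw [hg]
    simp
  have hal : 0 ≤ a * l := by positivity
  have halL : a * l ≤ a * L := mul_le_mul_of_nonneg_left hlL ha.le
  have hg1 : 0 ≤ g.re := by rw [hgre]; linarith
  have hg2 : g.re ≤ (a + 1) * L := by rw [hgre]; nlinarith
  have hgn := hF v hTV
  have hgam : 0 < ‖gam (2 + I * v)‖ := norm_pos_iff.mpr (gam_ne v)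
  have hEpos : 0 < ‖EE a g‖ := lt_of_lt_of_le (mul_pos hc hgam) hgn
  have hg0 : EE a g ≠ 0 := norm_pos_iff.mp hEpos
  have hlogE : Real.log c + Real.log ‖gam (2 + I * v)‖ ≤ Real.log ‖EE a g‖ := by
    rw [← Real.log_mul hc.ne' hgam.ne']
    exact Real.log_le_log (mul_pos hc hgam) hgn
  set Q := (a + 1) ^ 2 / (4 * a) * L ^ 2 + |Real.log c| with hQdef
  have hQ : 0 ≤ Q := by positivity
  have hlow : pot a g - Q ≤ Real.log ‖EE a g‖ := by
    have h1 : pot a g = g.re ^ 2 / (4 * a) + Real.log ‖gam (2 + I * v)‖ := by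
      unfold pot
      rw [hgim]
    have h2 : g.re ^ 2 / (4 * a) ≤ (a + 1) ^ 2 / (4 * a) * L ^ 2 := by
      have h3 : g.re ^ 2 ≤ ((a + 1) * L) ^ 2 := pow_le_pow_left₀ hg1 hg2 2
      have h4 : (a + 1) ^ 2 / (4 * a) * L ^ 2 = ((a + 1) * L) ^ 2 / (4 * a) := by ring
      rw [h4]
      gcongr
    have h5 : -|Real.log c| ≤ Real.log c := neg_abs_le _
    rw [h1, hQdef]
    linarith
  have hR : 0 < K * L := by positivity
  have hb := hD T hTT₁ g (K * L) Q hR (by rw [hK]; nlinarith) (by rw [abs_of_nonneg hg1, hK]; nlinarith)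
    (by rw [hgim, hK]; nlinarith) hg0 hQ hlow
  have hsub : Rect (-(a * L)) (a * L) v (v + L) ⊆ Metric.closedBall g (K * L) := by
    intro w hw
    obtain ⟨h1, h2, h3, h4⟩ := hw
    rw [Metric.mem_closedBall, dist_eq_norm]
    refine norm_le_of_coord w g (2 * (a + 1) * L) L (K * L) ?_ ?_ hR.le ?_
    · rw [abs_le]
      constructor <;> nlinarith
    · rw [hgim, abs_le]
      constructor <;> linarith
    · rw [hK]
      have h5 : (2 * (a + 1) * L) ^ 2 + L ^ 2 = (4 * (a + 1) ^ 2 + 1) * L ^ 2 := by ring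
      have h6 : (4 * (a + 1) * L) ^ 2 = (16 * (a + 1) ^ 2) * L ^ 2 := by ring
      rw [h5, h6]
      refine mul_le_mul_of_nonneg_right ?_ (sq_nonneg _)
      nlinarith
  refine le_trans (lintegral_mono_set hsub) (le_trans hb ?_)
  refine ENNReal.ofReal_le_ofReal ?_
  have hL1 : 1 ≤ L := by linarith
  have hL2 : 1 ≤ L ^ 2 := one_le_pow₀ hL1
  have hLL : L ≤ L ^ 2 := by nlinarith
  have hstep : (K * L) ^ 2 / (8 * a) + 1 + A₁ * L + Q ≤ B * L ^ 2 := by
    have h1 : (K * L) ^ 2 / (8 * a) = K ^ 2 / (8 * a) * L ^ 2 := by ring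
    have h2 : A₁ * L ≤ A₁ * L ^ 2 := mul_le_mul_of_nonneg_left hLL hA₁.le
    have h3 : |Real.log c| ≤ |Real.log c| * L ^ 2 := le_mul_of_one_le_right (abs_nonneg _) hL2
    rw [h1, hQdef, hB]
    have h4 : (K ^ 2 / (8 * a) + 1 + A₁ + ((a + 1) ^ 2 / (4 * a) + |Real.log c|)) * L ^ 2 =
      K ^ 2 / (8 * a) * L ^ 2 + L ^ 2 + A₁ * L ^ 2 + ((a + 1) ^ 2 / (4 * a) * L ^ 2 + |Real.log c| * L ^ 2) := by ring
    rw [h4]
    linarith
  calc Real.pi * (K * L) ^ 2 * ((K * L) ^ 2 / (8 * a) + 1 + A₁ * L + Q)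
      ≤ Real.pi * (K * L) ^ 2 * (B * L ^ 2) := mul_le_mul_of_nonneg_left hstep (by positivity)
    _ = Real.pi * K ^ 2 * B * L ^ 4 := by ring

end

end Pool.Agent.J4H79.EQ
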